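import Mathlib

set_option autoImplicit false

/-!
# The splitting number at a regular uncountable cardinal under GCH below it

Let `κ` be a regular uncountable cardinal.  If `2 ^ α ≤ α⁺ⁿ` (the `n`-th cardinal successor of `α`)
for all infinite cardinals `α < κ`, then the splitting number `s(κ)` is at most the `(n+1)`-st
cardinal successor of `κ`.  For `n = 1`: if GCH holds below `κ` then `s(κ) ≤ κ⁺⁺`.

Proof.  Suppose that `θ = κ⁺⁽ⁿ⁺¹⁾ < s(κ)`.  Then `θ < 2 ^ κ`, so let `X i`, `i < θ`, be different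
subsets of `κ`.  Consider the functions from `κ` to the ordinals which are named by terms: the
identity, the constants less than `κ`, with a function `g` also `ξ ↦ code (g ξ) (X i ∩ g ξ)`, where
`code α` is an injection of the power set of `α` into `2 ^ |α|`, and with `g` and `g'` also
`ξ ↦ h (g ξ) (g' ξ)`, where `h γ` is an injection of `γ` into `|γ|`.  There are only `θ` terms, so
there is a set `A` of size `κ` which is not split by any of the sets where one of two such
functions is smaller than, or equal to, the other one.  Modulo the sets which meet `A` in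
a set of size less than `κ` the terms are well-ordered (this filter is closed under
intersections of less than `κ` sets).  Let `t` be a minimal term which is not constant.  Then
there are at most `κ` terms below `|t|`, at most `κ⁺` terms below `|t|⁺`, and so on, up to
equivalence, so at most `κ⁺ⁿ` terms below `|t|⁺ⁿ`.  But the terms `code t (X i ∩ t)` are `θ` different
terms below `2 ^ |t|`.
-/

namespace Pool.Agent.Results.MP_0882a3_lc.SplittingBound

open Cardinal Set Filter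

universe u

/-- The cardinal `κ`, as the well-ordered set of the ordinals less than `κ`. -/
abbrev K (κ : Cardinal.{u}) : Type u := κ.ord.ToType

/-- The set `S` splits the set `A`: both `A ∩ S` and `A \ S` have cardinality `κ`. -/
def Splits (κ : Cardinal.{u}) (S A : Set (K κ)) : Prop :=
  #(↥(A ∩ S)) = κ ∧ #(↥(A \ S)) = κ

/-- `F` is a family of subsets of `κ` of cardinality `κ` such that each subset of `κ` of
cardinality `κ` is split by some member of `F`. -/
def IsSplittingFamily (κ : Cardinal.{u}) (F : Set (Set (K κ))) : Prop :=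
  (∀ S ∈ F, #(↥S) = κ) ∧ ∀ A : Set (K κ), #(↥A) = κ → ∃ S ∈ F, Splits κ S A

/-- The splitting number `s(κ)`: the least cardinality of a splitting family. -/
noncomputable def splittingNumber (κ : Cardinal.{u}) : Cardinal.{u} :=
  sInf {θ | ∃ F : Set (Set (K κ)), IsSplittingFamily κ F ∧ #(↥F) = θ}

section

variable {κ : Cardinal.{u}}

theorem mkK : #(K κ) = κ := by
  rw [Cardinal.mk_toType, card_ord]

/-- a family which is smaller than `s(κ)` does not split some set -/
theorem exists_unsplit {θ : Cardinal.{u}} (hθ : θ < splittingNumber κ) (F : Set (Set (K κ)))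
    (hF : #(↥F) ≤ θ) :
    ∃ A : Set (K κ), #(↥A) = κ ∧ ∀ S ∈ F, #(↥(A ∩ S)) < κ ∨ #(↥(A \ S)) < κ := by
  by_contra hcon
  push Not at hcon
  have hsp : IsSplittingFamily κ {S ∈ F | #(↥S) = κ} := by
    refine ⟨fun S hS => hS.2, fun A hA => ?_⟩
    obtain ⟨S, hS, h1, h2⟩ := hcon A hA
    have h3 : #(↥(A ∩ S)) ≤ κ := (mk_le_mk_of_subset inter_subset_left).trans_eq hA
    have h4 : #(↥(A \ S)) ≤ κ := (mk_le_mk_of_subset sdiff_subset).trans_eq hA
    have h5 : #(↥S) ≤ κ := (mk_set_le S).trans_eq mkK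
    have h6 : κ ≤ #(↥S) := h1.trans (mk_le_mk_of_subset inter_subset_right)
    exact ⟨S, ⟨hS, le_antisymm h5 h6⟩, le_antisymm h3 h1, le_antisymm h4 h2⟩
  have h7 : splittingNumber κ ≤ #(↥{S ∈ F | #(↥S) = κ}) := csInf_le' ⟨_, hsp, rfl⟩
  exact absurd (h7.trans ((mk_le_mk_of_subset (sep_subset _ _)).trans hF)) (not_le.2 hθ)

/-- a set of infinite cardinality `κ` is the union of two disjoint sets of cardinality `κ` -/
theorem exists_half (hκ : ℵ₀ ≤ κ) (A : Set (K κ)) (hA : #(↥A) = κ) :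
    ∃ S : Set (K κ), #(↥(A ∩ S)) = κ ∧ #(↥(A \ S)) = κ := by
  have h1 : #(↥A ⊕ ↥A) = #(↥A) := by
    rw [mk_sum, lift_id, hA, add_eq_self hκ]
  obtain ⟨e⟩ := Cardinal.eq.1 h1
  have h2 : ∀ f : ↥A → ↥A ⊕ ↥A, Function.Injective f → ∀ B : Set (K κ),
      (∀ a, ((e (f a) : ↥A) : K κ) ∈ B) → B ⊆ A → #(↥B) = κ := by
    intro f hf B hB hBA
    refine le_antisymm ((mk_le_mk_of_subset hBA).trans_eq hA) ?_
    have : #(↥A) ≤ #(↥B) := by
      refine mk_le_of_injective (f := fun a => (⟨_, hB a⟩ : ↥B)) ?_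
      intro a b hab
      have h3 : ((e (f a) : ↥A) : K κ) = ((e (f b) : ↥A) : K κ) := by
        simpa only [Subtype.mk.injEq] using hab
      exact hf (e.injective (Subtype.ext h3))
    rwa [hA] at this
  refine ⟨{x | ∃ a : ↥A, ((e (Sum.inl a) : ↥A) : K κ) = x}, ?_, ?_⟩
  · exact h2 Sum.inl Sum.inl_injective _ (fun a => ⟨(e (Sum.inl a)).2, a, rfl⟩) inter_subset_left
  · refine h2 Sum.inr Sum.inr_injective _ (fun a => ⟨(e (Sum.inr a)).2, ?_⟩) sdiff_subset
    rintro ⟨b, hb⟩
    have := e.injective (Subtype.ext hb)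
    simp at this

/-- the ordinal of an element of `κ` -/
noncomputable def vo (x : K κ) : Ordinal.{u} := ((Ordinal.ToType.mk.symm x : Iio κ.ord) : Ordinal.{u})

theorem vo_lt (x : K κ) : vo x < κ.ord := (Ordinal.ToType.mk.symm x : Iio κ.ord).2

theorem exists_vo {o : Ordinal.{u}} (ho : o < κ.ord) : ∃ x : K κ, vo x = o :=
  ⟨Ordinal.ToType.mk ⟨o, ho⟩, by simp [vo]⟩

theorem vo_inj {x y : K κ} (h : vo x = vo y) : x = y :=
  Ordinal.ToType.mk.symm.injective (Subtype.ext h)

theorem exists_code : ∃ code : Ordinal.{u} → Set Ordinal.{u} → Ordinal.{u},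
    (∀ α X, code α X < ((2 : Cardinal.{u}) ^ α.card).ord) ∧
    ∀ α X Y, code α X = code α Y → ∀ β < α, (β ∈ X ↔ β ∈ Y) := by
  have h1 : ∀ α : Ordinal.{u},
      Nonempty (Set α.ToType ≃ ((2 : Cardinal.{u}) ^ α.card).ord.ToType) := fun α => by
    rw [← Cardinal.eq, mk_set, Cardinal.mk_toType, Cardinal.mk_toType, card_ord]
  let e := fun α => Classical.choice (h1 α)
  refine ⟨fun α X => ((Ordinal.ToType.mk.symm
    (e α {x | ((Ordinal.ToType.mk.symm x : Iio α) : Ordinal.{u}) ∈ X}) :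
      Iio (((2 : Cardinal.{u}) ^ α.card).ord)) : Ordinal.{u}), fun α X =>
        (Ordinal.ToType.mk.symm (e α {x | ((Ordinal.ToType.mk.symm x : Iio α) : Ordinal.{u}) ∈ X}) :
          Iio (((2 : Cardinal.{u}) ^ α.card).ord)).2, ?_⟩
  intro α X Y h β hβ
  have h2 := (e α).injective (Ordinal.ToType.mk.symm.injective (Subtype.ext h))
  have h3 := Set.ext_iff.1 h2 (Ordinal.ToType.mk ⟨β, hβ⟩)
  simpa using h3

theorem exists_h : ∃ h : Ordinal.{u} → Ordinal.{u} → Ordinal.{u},
    (∀ γ β, β < γ → h γ β < γ.card.ord) ∧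
    ∀ γ β β', β < γ → β' < γ → h γ β = h γ β' → β = β' := by
  have h1 : ∀ γ : Ordinal.{u}, Nonempty (γ.ToType ≃ γ.card.ord.ToType) := fun γ => by
    rw [← Cardinal.eq, Cardinal.mk_toType, Cardinal.mk_toType, card_ord]
  let e := fun α => Classical.choice (h1 α)
  classical
  refine ⟨fun γ β => if hβ : β < γ then ((Ordinal.ToType.mk.symm
    (e γ (Ordinal.ToType.mk ⟨β, hβ⟩)) : Iio (γ.card.ord)) : Ordinal.{u}) else 0, ?_, ?_⟩
  · intro γ β hβ
    simp only [dif_pos hβ]
    exact (Ordinal.ToType.mk.symm (e γ (Ordinal.ToType.mk ⟨β, hβ⟩)) : Iio (γ.card.ord)).2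
  · intro γ β β' hβ hβ' h
    simp only [dif_pos hβ, dif_pos hβ'] at h
    have h2 := Ordinal.ToType.mk.injective
      ((e γ).injective (Ordinal.ToType.mk.symm.injective (Subtype.ext h)))
    exact congrArg Subtype.val h2

/-- the sets which contain almost all elements of `A` -/
def fil (hκ : ℵ₀ ≤ κ) (A : Set (K κ)) : Filter (K κ) :=
  Filter.comk (fun s => #(↥(A ∩ s)) < κ)
    (by simpa using (aleph0_pos.trans_le hκ))
    (fun t ht s hst => (mk_le_mk_of_subset (inter_subset_inter_right A hst)).trans_lt ht)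
    (fun s hs t ht => by
      rw [inter_union_distrib_left]
      exact (mk_union_le _ _).trans_lt (add_lt_of_lt hκ hs ht))

theorem mem_fil {hκ : ℵ₀ ≤ κ} {A s : Set (K κ)} : s ∈ fil hκ A ↔ #(↥(A \ s)) < κ := by
  rw [fil, Filter.mem_comk, sdiff_eq]

theorem fil_all {hκ : ℵ₀ ≤ κ} (hr : κ.IsRegular) {A : Set (K κ)} {ι : Type u} (hι : #ι < κ)
    {P : ι → K κ → Prop} (h : ∀ i, ∀ᶠ ξ in fil hκ A, P i ξ) :
    ∀ᶠ ξ in fil hκ A, ∀ i, P i ξ := by
  have h1 : {ξ | ∀ i, P i ξ} ∈ fil hκ A := by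
    rw [mem_fil]
    have h2 : A \ {ξ | ∀ i, P i ξ} = ⋃ i, A \ {ξ | P i ξ} := by
      ext ξ
      simp only [Set.mem_sdiff, mem_ofPred_eq, mem_iUnion, not_forall]
      exact ⟨fun h => let ⟨i, hi⟩ := h.2; ⟨i, h.1, hi⟩, fun ⟨i, h, hi⟩ => ⟨h, i, hi⟩⟩
    rw [h2, card_iUnion_lt_iff_forall_of_isRegular hr hι]
    exact fun i => mem_fil.1 (h i)
  exact h1

theorem fil_nat {hκ : ℵ₀ ≤ κ} (hr : κ.IsRegular) (h0 : ℵ₀ < κ) {A : Set (K κ)}
    {P : ℕ → K κ → Prop} (h : ∀ i, ∀ᶠ ξ in fil hκ A, P i ξ) :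
    ∀ᶠ ξ in fil hκ A, ∀ i, P i ξ := by
  have := fil_all (hκ := hκ) hr (ι := ULift.{u} ℕ) (A := A) (by simpa using h0)
    (P := fun i ξ => P i.down ξ) (fun i => h i.down)
  exact this.mono fun ξ hξ i => hξ ⟨i⟩

theorem fil_neBot {hκ : ℵ₀ ≤ κ} {A : Set (K κ)} (hA : #(↥A) = κ) : (fil hκ A).NeBot := by
  rw [neBot_iff, ne_eq, ← empty_mem_iff_bot, mem_fil, sdiff_empty, hA]
  exact lt_irrefl κ

theorem fil_dich {hκ : ℵ₀ ≤ κ} {A S : Set (K κ)} (h : #(↥(A ∩ S)) < κ ∨ #(↥(A \ S)) < κ) :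
    (∀ᶠ ξ in fil hκ A, ξ ∈ S) ∨ (∀ᶠ ξ in fil hκ A, ξ ∉ S) := by
  rcases h with h | h
  · right
    change Sᶜ ∈ fil hκ A
    rw [mem_fil, sdiff_compl]
    exact h
  · left
    change S ∈ fil hκ A
    rw [mem_fil]
    exact h

/-- the symbols of the terms -/
inductive Sym (I C : Type u) : Type u
  | id : Sym I C
  | const : C → Sym I C
  | code : I → Sym I C
  | hh : Sym I C

/-- the arities of the symbols -/
def ar {I C : Type u} : Sym I C → Type u
  | .id => PEmpty
  | .const _ => PEmpty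
  | .code _ => PUnit
  | .hh => ULift Bool

/-- the terms -/
abbrev Tm (I C : Type u) : Type u := WType (ar (I := I) (C := C))

instance {I C : Type u} (a : Sym I C) : Finite (ar a) := by
  cases a <;> simp only [ar] <;> infer_instance

theorem mkTm {I C : Type u} {θ : Cardinal.{u}} (hθ : ℵ₀ ≤ θ) (hI : #I ≤ θ) (hC : #C ≤ θ) :
    #(Tm I C) ≤ θ := by
  refine WType.cardinalMk_le_max_aleph0_of_finite.trans (max_le ?_ hθ)
  have h1 : #(Sym I C) ≤ #(I ⊕ (C ⊕ ULift.{u} Bool)) := by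
    refine mk_le_of_injective (f := fun s => match s with
      | .id => Sum.inr (Sum.inr ⟨true⟩)
      | .const c => Sum.inr (Sum.inl c)
      | .code i => Sum.inl i
      | .hh => Sum.inr (Sum.inr ⟨false⟩)) ?_
    intro a b
    cases a <;> cases b <;> simp
  refine h1.trans ?_
  simp only [mk_sum, Cardinal.lift_id]
  refine add_le_of_le hθ hI (add_le_of_le hθ hC ?_)
  exact (mk_le_aleph0).trans hθ

section

variable (code : Ordinal.{u} → Set Ordinal.{u} → Ordinal.{u})
  (h : Ordinal.{u} → Ordinal.{u} → Ordinal.{u}) {I : Type u} (X : I → Set (K κ))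

/-- the function from `κ` to the ordinals which is named by a term -/
noncomputable def ev : Tm I (K κ) → K κ → Ordinal.{u} :=
  WType.elim (K κ → Ordinal.{u}) fun p => match p with
    | ⟨.id, _⟩ => fun ξ => vo ξ
    | ⟨.const c, _⟩ => fun _ => vo c
    | ⟨.code i, f⟩ => fun ξ => code (f PUnit.unit ξ) (vo '' X i)
    | ⟨.hh, f⟩ => fun ξ => h (f ⟨true⟩ ξ) (f ⟨false⟩ ξ)

/-- the identity, as a term -/
def tid : Tm I (K κ) := WType.mk Sym.id PEmpty.elim
/-- the constants, as terms -/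
def tconst (c : K κ) : Tm I (K κ) := WType.mk (Sym.const c) PEmpty.elim
/-- `code (t ξ) (X i ∩ t ξ)`, as a term -/
def tcode (i : I) (t : Tm I (K κ)) : Tm I (K κ) := WType.mk (Sym.code i) fun _ => t
/-- `h (t ξ) (t' ξ)`, as a term -/
def thh (t t' : Tm I (K κ)) : Tm I (K κ) := WType.mk Sym.hh fun b => if b.down then t else t'

theorem ev_id (ξ : K κ) : ev code h X tid ξ = vo ξ := rfl
theorem ev_const (c ξ : K κ) : ev code h X (tconst c) ξ = vo c := rfl
theorem ev_code (i : I) (t : Tm I (K κ)) (ξ : K κ) :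
    ev code h X (tcode i t) ξ = code (ev code h X t ξ) (vo '' X i) := rfl
theorem ev_hh (t t' : Tm I (K κ)) (ξ : K κ) :
    ev code h X (thh t t') ξ = h (ev code h X t ξ) (ev code h X t' ξ) := rfl

end

end

theorem main {κ : Cardinal.{u}} (hr : κ.IsRegular) (h0 : ℵ₀ < κ) (n : ℕ)
    (hpow : ∀ α : Cardinal.{u}, ℵ₀ ≤ α → α < κ → (2 : Cardinal.{u}) ^ α ≤ Order.succ^[n] α) :
    splittingNumber κ ≤ Order.succ^[n + 1] κ := by
  classical
  by_contra hcon
  rw [not_le] at hcon
  have hκ : ℵ₀ ≤ κ := h0.le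
  have hle : ∀ (m : ℕ) (c : Cardinal.{u}), c ≤ Order.succ^[m] c := fun m c => Order.le_succ_iterate m c
  set θ : Cardinal.{u} := Order.succ^[n + 1] κ with hθdef
  have hκθ : κ ≤ θ := hle _ _
  have hθ0 : ℵ₀ ≤ θ := hκ.trans hκθ
  -- there are more than `θ` subsets of `κ`
  have hθ2 : θ < #(Set (K κ)) := by
    by_contra hc
    rw [not_lt] at hc
    obtain ⟨A, hA, hAS⟩ := exists_unsplit hcon (Set.univ : Set (Set (K κ))) (by rwa [mk_univ])
    obtain ⟨S, h1, h2⟩ := exists_half hκ A hA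
    rcases hAS S (mem_univ S) with h3 | h3
    · exact absurd h1 h3.ne
    · exact absurd h2 h3.ne
  obtain ⟨⟨X, hX⟩⟩ : Nonempty (θ.out ↪ Set (K κ)) := by
    have : #θ.out ≤ #(Set (K κ)) := by rw [mk_out]; exact hθ2.le
    exact this
  obtain ⟨code, hcode1, hcode2⟩ := exists_code.{u}
  obtain ⟨h, hh1, hh2⟩ := exists_h.{u}
  set e : Tm θ.out (K κ) → K κ → Ordinal.{u} := ev code h X with he
  have hTm : #(Tm θ.out (K κ)) ≤ θ := mkTm hθ0 (mk_out θ).le (mkK.trans_le hκθ)
  -- the unsplit set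
  obtain ⟨A, hA, hAS⟩ := exists_unsplit hcon
    (Set.range (fun p : Tm θ.out (K κ) × Tm θ.out (K κ) => {ξ | e p.1 ξ < e p.2 ξ}) ∪
      Set.range (fun p : Tm θ.out (K κ) × Tm θ.out (K κ) => {ξ | e p.1 ξ = e p.2 ξ})) (by
      refine (mk_union_le _ _).trans (add_le_of_le hθ0 ?_ ?_) <;>
      · refine mk_range_le.trans ?_
        rw [mk_prod, lift_id]
        exact (mul_le_mul' hTm hTm).trans_eq (mul_eq_self hθ0))
  set F := fil hκ A with hF
  have hne : F.NeBot := fil_neBot hA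
  have hlt : ∀ t t', (∀ᶠ ξ in F, e t ξ < e t' ξ) ∨ (∀ᶠ ξ in F, ¬ e t ξ < e t' ξ) := fun t t' =>
    fil_dich (hκ := hκ) (hAS _ (Or.inl ⟨(t, t'), rfl⟩))
  have heq : ∀ t t', (∀ᶠ ξ in F, e t ξ = e t' ξ) ∨ (∀ᶠ ξ in F, ¬ e t ξ = e t' ξ) := fun t t' =>
    fil_dich (hκ := hκ) (hAS _ (Or.inr ⟨(t, t'), rfl⟩))
  have htri : ∀ t t', (∀ᶠ ξ in F, e t ξ < e t' ξ) ∨ (∀ᶠ ξ in F, e t ξ = e t' ξ) ∨
      (∀ᶠ ξ in F, e t' ξ < e t ξ) := by
    intro t t'
    rcases hlt t t' with h1 | h1
    · exact Or.inl h1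
    rcases heq t t' with h2 | h2
    · exact Or.inr (Or.inl h2)
    · right; right
      filter_upwards [h1, h2] with ξ h3 h4
      exact lt_of_le_of_ne (not_lt.1 h3) (Ne.symm h4)
  let R : Tm θ.out (K κ) → Tm θ.out (K κ) → Prop := fun t t' => ∀ᶠ ξ in F, e t ξ < e t' ξ
  have hso : IsStrictOrder (Tm θ.out (K κ)) R :=
    { irrefl := fun t ht => by
        obtain ⟨ξ, hξ⟩ := ht.exists
        exact lt_irrefl _ hξ
      trans := fun a b c hab hbc => by
        filter_upwards [hab, hbc] with ξ h1 h2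
        exact h1.trans h2 }
  have hwf : WellFounded R := by
    rw [RelEmbedding.wellFounded_iff_isEmpty]
    refine ⟨fun f => ?_⟩
    have h1 : ∀ᶠ ξ in F, ∀ k : ℕ, e (f (k + 1)) ξ < e (f k) ξ :=
      fil_nat hr h0 fun k => f.map_rel_iff.2 (Nat.lt_succ_self k)
    obtain ⟨ξ, hξ⟩ := h1.exists
    exact (RelEmbedding.wellFounded_iff_isEmpty.1
      (wellFounded_lt (α := Ordinal.{u}))).false (RelEmbedding.natGT (fun k => e (f k) ξ) hξ)
  -- a minimal non-constant term
  obtain ⟨t₀, ht₀, hmin⟩ := hwf.has_min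
    {t : Tm θ.out (K κ) | ∀ c : K κ, ¬ ∀ᶠ ξ in F, e t ξ = vo c} ⟨tid, by
      intro c hc
      have h1 : (A \ {ξ | e tid ξ = vo c}) ∪ {c} ⊇ A := by
        intro ξ hξ
        by_cases h2 : ξ = c
        · exact Or.inr h2
        · exact Or.inl ⟨hξ, fun h3 => h2 (vo_inj h3)⟩
      have h2 : #(↥A) < κ := (mk_le_mk_of_subset h1).trans_lt ((mk_union_le _ _).trans_lt
        (add_lt_of_lt hκ (mem_fil.1 hc) (by simpa using one_lt_aleph0.trans_le hκ)))
      exact absurd hA h2.ne⟩
  have hconst : ∀ t, R t t₀ → ∃ c : K κ, ∀ᶠ ξ in F, e t ξ = vo c := by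
    intro t ht
    by_contra hc
    exact hmin t (not_exists.1 hc) ht
  -- `t₀` is above each constant
  have hbig : ∀ o < κ.ord, ∀ᶠ ξ in F, o < e t₀ ξ := by
    intro o ho
    obtain ⟨c, rfl⟩ := exists_vo ho
    rcases htri (tconst c) t₀ with h1 | h1 | h1
    · exact h1
    · exact absurd (h1.mono fun ξ hξ => hξ.symm) (ht₀ c)
    · exfalso
      have h2 : ∀ x : (Order.succ (vo c)).ToType, ∀ᶠ ξ in F,
          ¬ e t₀ ξ = ((Ordinal.ToType.mk.symm x : Iio (Order.succ (vo c))) : Ordinal.{u}) := by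
        intro x
        have hx : ((Ordinal.ToType.mk.symm x : Iio (Order.succ (vo c))) : Ordinal.{u}) < κ.ord :=
          (Order.lt_succ_iff.1 (Ordinal.ToType.mk.symm x : Iio (Order.succ (vo c))).2).trans_lt
            (vo_lt c)
        obtain ⟨d, hd⟩ := exists_vo hx
        rcases heq t₀ (tconst d) with h3 | h3
        · exact absurd h3 (ht₀ d)
        · rw [← hd]
          exact h3
      have h3 := fil_all (hκ := hκ) hr (A := A) (ι := (Order.succ (vo c)).ToType) (by
        rw [Cardinal.mk_toType, ← lt_ord]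
        exact (isSuccLimit_ord hκ).succ_lt (vo_lt c)) h2
      obtain ⟨ξ, h4, h5⟩ := (h3.and h1).exists
      have h6 : e t₀ ξ < Order.succ (vo c) := h5.trans (Order.lt_succ _)
      exact h4 (Ordinal.ToType.mk ⟨e t₀ ξ, h6⟩) (by simp)
  have hsmall : ∀ᶠ ξ in F, e t₀ ξ < κ.ord := by
    have h1 : ¬ R tid t₀ := by
      intro h1
      obtain ⟨c, hc⟩ := hconst tid h1
      have h1 : (A \ {ξ | e tid ξ = vo c}) ∪ {c} ⊇ A := by
        intro ξ hξ
        by_cases h2 : ξ = c
        · exact Or.inr h2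
        · exact Or.inl ⟨hξ, fun h3 => h2 (vo_inj h3)⟩
      have h2 : #(↥A) < κ := (mk_le_mk_of_subset h1).trans_lt ((mk_union_le _ _).trans_lt
        (add_lt_of_lt hκ (mem_fil.1 hc) (by simpa using one_lt_aleph0.trans_le hκ)))
      exact absurd hA h2.ne
    rcases htri t₀ tid with h2 | h2 | h2
    · exact h2.mono fun ξ hξ => hξ.trans (vo_lt ξ)
    · exact h2.mono fun ξ hξ => hξ.trans_lt (vo_lt ξ)
    · exact absurd h2 h1
  -- the number of terms below `|t₀|⁺ᵐ`
  have hP : ∀ m : ℕ, ∀ (J : Type u) (s : J → Tm θ.out (K κ)),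
      (∀ j j', (∀ᶠ ξ in F, e (s j) ξ = e (s j') ξ) → j = j') →
      (∀ j, ∀ᶠ ξ in F, e (s j) ξ < (Order.succ^[m] (e t₀ ξ).card).ord) →
      #J ≤ Order.succ^[m] κ := by
    intro m
    induction m with
    | zero =>
      intro J s hs hj
      have h1 : ∀ j, ∃ c : K κ, ∀ᶠ ξ in F, e (s j) ξ = vo c := fun j => hconst _
        ((hj j).mono fun ξ hξ => hξ.trans_le (ord_card_le _))
      choose c hc using h1
      have h2 : #J ≤ #(K κ) := by
        refine mk_le_of_injective (f := c) fun j j' hjj => hs j j' ?_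
        filter_upwards [hc j, hc j'] with ξ h3 h4
        rw [h3, h4, hjj]
      simpa [mkK] using h2
    | succ m ih =>
      intro J s hs hj
      by_contra hc
      rw [not_le, Function.iterate_succ_apply'] at hc
      set μ : Cardinal.{u} := Order.succ^[m] κ with hμ
      let r : J → J → Prop := fun j j' => R (s j) (s j')
      have hwo : IsWellOrder J r :=
        { trichotomous := fun a b h1 h2 => by
            rcases htri (s a) (s b) with h3 | h3 | h3
            · exact absurd h3 h1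
            · exact hs a b h3
            · exact absurd h3 h2
          wf := InvImage.wf s hwf }
      have h1 : (Order.succ μ).ord < Ordinal.type r := by
        by_contra h2
        rw [not_lt] at h2
        have h3 := Ordinal.card_le_card h2
        rw [card_ord, Ordinal.card_type] at h3
        exact absurd hc (not_lt.2 h3)
      set j : J := Ordinal.enum r ⟨(Order.succ μ).ord, h1⟩ with hjdef
      have h2 : #{j' : J // r j' j} = Order.succ μ := by
        have h3 := Ordinal.card_typein (r := r) j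
        rw [← h3, hjdef, Ordinal.typein_enum, card_ord]
      have h3 := ih {j' : J // r j' j} (fun j' => thh (s j) (s j'.1)) (fun a b hab => ?_)
        (fun j' => ?_)
      · rw [h2] at h3
        exact absurd h3 (not_le.2 (Order.lt_succ μ))
      · refine Subtype.ext (hs _ _ ?_)
        have ha : R (s a.1) (s j) := a.2
        have hb : R (s b.1) (s j) := b.2
        filter_upwards [hab, ha, hb] with ξ h5 h6 h7
        exact hh2 _ _ _ h6 h7 h5
      · have ha : R (s j'.1) (s j) := j'.2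
        filter_upwards [ha, hj j] with ξ h5 h6
        refine (hh1 _ _ h5).trans_le (ord_le_ord.2 ?_)
        rw [Function.iterate_succ_apply'] at h6
        exact Order.lt_succ_iff.1 (lt_ord.1 h6)
  -- the contradiction
  have h1 := hP n θ.out (fun i => tcode i t₀) (fun i j hij => ?_) (fun i => ?_)
  · rw [mk_out, hθdef, Function.iterate_succ_apply'] at h1
    exact absurd h1 (not_le.2 (Order.lt_succ _))
  · by_contra hne
    have h2 : X i ≠ X j := fun h3 => hne (hX h3)
    obtain ⟨x, hx⟩ : ∃ x, ¬ (x ∈ X i ↔ x ∈ X j) := by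
      by_contra h3
      push Not at h3
      exact h2 (Set.ext h3)
    obtain ⟨ξ, h3, h4⟩ := (hij.and (hbig (vo x) (vo_lt x))).exists
    have h5 := hcode2 _ _ _ h3 (vo x) h4
    have h6 : ∀ k, vo x ∈ vo '' X k ↔ x ∈ X k := fun k =>
      ⟨fun ⟨y, hy, hyx⟩ => vo_inj hyx ▸ hy, fun hy => ⟨x, hy, rfl⟩⟩
    rw [h6, h6] at h5
    exact hx h5
  · have h2 := hbig Ordinal.omega0 (by rw [← ord_aleph0]; exact ord_lt_ord.2 h0)
    filter_upwards [h2, hsmall] with ξ h3 h4
    refine (hcode1 _ _).trans_le (ord_le_ord.2 (hpow _ ?_ (lt_ord.1 h4)))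
    have := Ordinal.card_le_card h3.le
    rwa [Ordinal.card_omega0] at this

/-- the splitting number is the cardinality of a splitting family -/
theorem exists_family {κ : Cardinal.{u}} (hκ : ℵ₀ ≤ κ) :
    ∃ F : Set (Set (K κ)), IsSplittingFamily κ F ∧ #(↥F) = splittingNumber κ := by
  have h1 : IsSplittingFamily κ {S : Set (K κ) | #(↥S) = κ} := by
    refine ⟨fun S hS => hS, fun A hA => ?_⟩
    obtain ⟨S, h1, h2⟩ := exists_half hκ A hA
    refine ⟨A ∩ S, h1, ?_, ?_⟩
    · rwa [← inter_assoc, inter_self]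
    · rwa [sdiff_self_inter]
  exact csInf_mem (s := {θ | ∃ F : Set (Set (K κ)), IsSplittingFamily κ F ∧ #(↥F) = θ})
    ⟨_, _, h1, rfl⟩

/-- Let `κ` be a regular uncountable cardinal.

* The splitting number `s(κ)` is the cardinality of a splitting family.
* If GCH holds below `κ`, then `s(κ) ≤ κ⁺⁺`, and so `s(κ)` is not `κ⁺³`.
* More generally, let `n` be a natural number such that `2 ^ α ≤ α⁺ⁿ` for each infinite cardinal
  `α < κ`. Then `s(κ) ≤ κ⁺⁽ⁿ⁺¹⁾`. -/
theorem result (κ : Cardinal.{u}) (hr : κ.IsRegular) (h0 : ℵ₀ < κ) :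
    (∃ F : Set (Set (K κ)), IsSplittingFamily κ F ∧ #(↥F) = splittingNumber κ) ∧
    ((∀ α : Cardinal.{u}, ℵ₀ ≤ α → α < κ → (2 : Cardinal.{u}) ^ α = Order.succ α) →
      splittingNumber κ ≤ Order.succ (Order.succ κ) ∧
      splittingNumber κ ≠ Order.succ (Order.succ (Order.succ κ))) ∧
    (∀ n : ℕ,
      (∀ α : Cardinal.{u}, ℵ₀ ≤ α → α < κ → (2 : Cardinal.{u}) ^ α ≤ Order.succ^[n] α) →
      splittingNumber κ ≤ Order.succ^[n + 1] κ) := by
  refine ⟨exists_family h0.le, fun hg => ?_, fun n hn => main hr h0 n hn⟩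
  have h1 : splittingNumber κ ≤ Order.succ (Order.succ κ) :=
    main hr h0 1 fun α h1 h2 => (hg α h1 h2).le
  exact ⟨h1, (h1.trans_lt (Order.lt_succ _)).ne⟩

end Pool.Agent.Results.MP_0882a3_lc.SplittingBound
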